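import Mathlib
import Pool.Agent.Work.MP_85e029_nt.Gap

namespace Pool.Agent.Results.MP_85e029_nt.NotDense

open Polynomial

/-- There are a complex Pisot unit `γ` (a non-real algebraic integer of modulus greater than one
whose inverse is an algebraic integer and whose other conjugates, apart from the complex conjugate,
have modulus less than one) and an integer `m > |γ| ^ 2 - 1` such that for every radius `R` some
closed disc of radius `R` contains no number `∑ j ≤ n, a j * γ ^ j` with digits `a j ≤ m`.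
Here `γ` is a root of `Y ^ 3 - 6 Y ^ 2 + 13 Y - 1` and `m = 12`. -/
theorem result :
    ∃ (γ : ℂ) (m : ℕ),
      γ ^ 3 - 6 * γ ^ 2 + 13 * γ - 1 = 0 ∧ m = 12 ∧
      γ.im ≠ 0 ∧ 1 < ‖γ‖ ∧ IsIntegral ℤ γ ∧ IsIntegral ℤ γ⁻¹ ∧
      (∀ z : ℂ, IsConjRoot ℚ γ z → z ≠ γ → z ≠ (starRingEnd ℂ) γ → ‖z‖ < 1) ∧
      1 ≤ m ∧ ‖γ‖ ^ 2 - 1 < (m : ℝ) ∧
      ∀ R : ℝ, 0 < R → ∃ c : ℂ, ∀ (n : ℕ) (a : ℕ → ℕ), (∀ j, a j ≤ m) →
        ∑ j ∈ Finset.range (n + 1), (a j : ℂ) * γ ^ j ∉ Metric.closedBall c R := by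
  obtain ⟨γ, t, ht0, ht1, him, hlo, hhi, h1, h2, hfac⟩ :=
    Pool.Agent.Work.MP_85e029_nt.exists_gamma
  have h3 : 3 ≤ ‖γ‖ := by
    by_contra h
    have := norm_nonneg γ
    nlinarith
  have hroot : γ ^ 3 - 6 * γ ^ 2 + 13 * γ - 1 = 0 := by rw [hfac]; ring
  have hint : IsIntegral ℤ γ := by
    refine ⟨X ^ 3 - C 6 * X ^ 2 + C 13 * X - C 1, by monicity!, ?_⟩
    simp only [eval₂_sub, eval₂_add, eval₂_mul, eval₂_pow, eval₂_X, eval₂_C]
    simpa using hroot
  have hγ : γ ≠ 0 := by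
    intro h; rw [h, norm_zero] at h3; norm_num at h3
  have hinv : γ⁻¹ = γ ^ 2 - 6 * γ + 13 := by
    apply inv_eq_of_mul_eq_one_right
    linear_combination hroot
  refine ⟨γ, 12, hroot, rfl, him, by linarith, hint, ?_, ?_, by norm_num, by push_cast; linarith, ?_⟩
  · rw [hinv]
    have h6 : IsIntegral ℤ (6 : ℂ) := by simpa using isIntegral_algebraMap (R := ℤ) (A := ℂ) (x := 6)
    have h13 : IsIntegral ℤ (13 : ℂ) := by
      simpa using isIntegral_algebraMap (R := ℤ) (A := ℂ) (x := 13)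
    exact ((hint.pow 2).sub (h6.mul hint)).add h13
  · intro z hz hz1 hz2
    have hdvd : minpoly ℚ γ ∣ (X ^ 3 - C 6 * X ^ 2 + C 13 * X - C 1 : ℚ[X]) := by
      apply minpoly.dvd
      simpa using hroot
    have hz0 : aeval z (X ^ 3 - C 6 * X ^ 2 + C 13 * X - C 1 : ℚ[X]) = 0 :=
      aeval_eq_zero_of_dvd_aeval_eq_zero hdvd hz.aeval_eq_zero
    have hz0' : z ^ 3 - 6 * z ^ 2 + 13 * z - 1 = 0 := by simpa using hz0
    rw [hfac, mul_eq_zero, mul_eq_zero, sub_eq_zero, sub_eq_zero, sub_eq_zero] at hz0'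
    rcases hz0' with (h | h) | h
    · rw [h, Complex.norm_real, Real.norm_eq_abs, abs_of_pos ht0]
      exact ht1
    · exact absurd h hz1
    · exact absurd h hz2
  · intro R _
    obtain ⟨c, hc⟩ := Pool.Agent.Work.MP_85e029_nt.holes γ 12 h3 h1 h2
      (by push_cast; linarith) R
    exact ⟨c, fun n a ha => hc (n + 1) a ha⟩

end Pool.Agent.Results.MP_85e029_nt.NotDense
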